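import Pool.Agent.H18.CGR.Stmts

/-!
# Board cgr (MP_286349), row CON

Concatenation formula for `nn`.
-/

set_option autoImplicit false

noncomputable section

namespace Pool.CGR

namespace Con86

theorem summ {α : Type} (κ : List α → ℂ) (F : List α →₀ ℂ) (v : List α) :
    Summable fun z : List α => κ z * F (z ++ v) := by
  apply summable_of_hasFiniteSupport
  refine Set.Finite.subset (Set.Finite.preimage (f := fun z : List α => z ++ v)
    (fun x _ y _ h => List.append_cancel_right h) F.support.finite_toSet) fun z hz => ?_
  simp only [Function.mem_support] at hz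
  simp only [Set.mem_preimage, Finset.mem_coe, Finsupp.mem_support_iff]
  exact right_ne_zero_of_mul hz

/-- `hd` on a nonempty list -/
theorem hd_cons {α : Type} [DecidableEq α] (i b : α) (v : List α) (F : List α → ℂ) :
    hd i (b :: v) F = if b = i then F v else 0 := rfl

theorem hd_nil {α : Type} [DecidableEq α] (i : α) (F : List α → ℂ) : hd i [] F = 0 := rfl

theorem key (hT : TCOStmt) {α : Type} [DecidableEq α] (κ : α → List α → ℂ) (a : α) (u w : List α) :
    ∀ v : List α, nn κ w (v ++ a :: u) = ∑ k ∈ Finset.range w.length,
      (if w[k]? = some a then nn κ (w.take k) u else 0) * nn κ (w.drop (k + 1)) v := by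
  induction w using List.reverseRecOn with
  | nil =>
    intro v
    simp [nn_nil, Finsupp.single_apply]
  | append_singleton w j ih =>
    intro v
    have h1 : ∀ k ∈ Finset.range w.length,
        (if (w ++ [j])[k]? = some a then nn κ ((w ++ [j]).take k) u else 0) *
          nn κ ((w ++ [j]).drop (k + 1)) v =
        (if w[k]? = some a then nn κ (w.take k) u else 0) * hd j v (nn κ (w.drop (k + 1))) +
          (if w[k]? = some a then nn κ (w.take k) u else 0) *
            ∑' z : List α, κ j z * nn κ (w.drop (k + 1)) (z ++ v) := by
      intro k hk
      have hk' := Finset.mem_range.1 hk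
      rw [List.getElem?_append_left hk', List.take_append_of_le_length hk'.le,
        List.drop_append_of_le_length (by omega), nn_append, hT, mul_add]
    rw [nn_append, hT, List.length_append, List.length_singleton, Finset.sum_range_succ,
      Finset.sum_congr rfl h1, Finset.sum_add_distrib]
    have h2 : ∑' z : List α, κ j z * nn κ w (z ++ (v ++ a :: u)) =
        ∑ k ∈ Finset.range w.length, (if w[k]? = some a then nn κ (w.take k) u else 0) *
          ∑' z : List α, κ j z * nn κ (w.drop (k + 1)) (z ++ v) := by
      have h3 : ∀ z : List α, κ j z * nn κ w (z ++ (v ++ a :: u)) =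
          ∑ k ∈ Finset.range w.length, (if w[k]? = some a then nn κ (w.take k) u else 0) *
            (κ j z * nn κ (w.drop (k + 1)) (z ++ v)) := by
        intro z
        rw [← List.append_assoc, ih, Finset.mul_sum]
        exact Finset.sum_congr rfl fun k _ => by ring
      rw [tsum_congr h3, Summable.tsum_finsetSum fun k _ => (summ (κ j) _ v).mul_left _]
      exact Finset.sum_congr rfl fun k _ => tsum_mul_left
    rw [h2]
    have h4 : hd j (v ++ a :: u) (nn κ w) =
        ∑ k ∈ Finset.range w.length, (if w[k]? = some a then nn κ (w.take k) u else 0) *
          hd j v (nn κ (w.drop (k + 1))) +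
        (if (w ++ [j])[w.length]? = some a then nn κ ((w ++ [j]).take w.length) u else 0) *
          nn κ ((w ++ [j]).drop (w.length + 1)) v := by
      have h5 : (w ++ [j]).drop (w.length + 1) = [] := by simp
      have h6 : (w ++ [j])[w.length]? = some j := by simp
      have h7 : (w ++ [j]).take w.length = w := by simp
      rw [h5, h6, h7, nn_nil]
      cases v with
      | nil =>
        rw [List.nil_append, hd_cons]
        have h8 : ∑ k ∈ Finset.range w.length,
            (if w[k]? = some a then nn κ (w.take k) u else 0) *
              hd j [] (nn κ (w.drop (k + 1))) = 0 :=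
          Finset.sum_eq_zero fun k _ => by rw [hd_nil, mul_zero]
        rw [h8, zero_add, Finsupp.single_eq_same, mul_one]
        by_cases h9 : a = j
        · rw [if_pos h9, if_pos (by rw [h9])]
        · rw [if_neg h9, if_neg (by
            intro h10
            exact h9 (Option.some.inj h10).symm)]
      | cons b v' =>
        rw [List.cons_append, hd_cons, ih v']
        have h8 : (Finsupp.single ([] : List α) (1 : ℂ)) (b :: v') = 0 := by
          rw [Finsupp.single_apply, if_neg (by simp)]
        rw [h8, mul_zero, add_zero]
        by_cases h9 : b = j
        · rw [if_pos h9]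
          exact Finset.sum_congr rfl fun k _ => by rw [hd_cons, if_pos h9]
        · rw [if_neg h9]
          exact (Finset.sum_eq_zero fun k _ => by rw [hd_cons, if_neg h9, mul_zero]).symm
    rw [h4]
    ring

end Con86

theorem con_thm (hT : TCOStmt) : CONStmt := by
  intro α _ κ a u v w
  rw [Con86.key hT]
  refine Finset.sum_congr rfl fun k _ => ?_
  split_ifs
  · rfl
  · rw [zero_mul]

end Pool.CGR
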